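import Pool.Agent.X209.CC.Corr
import Pool.Agent.X209.CC.Nor

/-!
# Equivariant correspondences and numbers of fixed points, for sets of irreducible characters
-/

open scoped Classical BigOperators
open Pool.Agent.Helper884.IC Pool.Agent.Y63.AWC
open Pool.Agent.X209.PJ (central_char irr_twist finite_irr char_mem Gal exists_gal)
open Pool.Agent.X209.CC

set_option linter.unusedSectionVars false
set_option linter.unusedVariables false

noncomputable section

namespace Pool.Agent.X209.AM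

/-- the irreducible characters with the property `Q` -/
def IrrQ {J : Type} [Group J] (Q : (J → ℂ) → Prop) : Type := {χ : J → ℂ // IsIrrChar χ ∧ Q χ}

/-- `Q` together with fixed by `U` -/
def QU {J : Type} (Q : (J → ℂ) → Prop) (U : Set (RingAut ℂ)) (χ : J → ℂ) : Prop :=
  Q χ ∧ ∀ σ ∈ U, ∀ g, σ (χ g) = χ g

/-- the automorphisms in `S` preserve `Q` -/
def Pres {J : Type} [Group J] (S : Set (RingAut ℂ)) (Q : (J → ℂ) → Prop) : Prop :=
  ∀ σ ∈ S, ∀ χ : J → ℂ, IsIrrChar χ → (Q χ ↔ Q (fun g => σ (χ g)))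

lemma Pres.closure {J : Type} [Group J] [Finite J] {S : Set (RingAut ℂ)} {Q : (J → ℂ) → Prop}
    (h : Pres S Q) : Pres (Subgroup.closure S : Set (RingAut ℂ)) Q := by
  have : Fintype J := Fintype.ofFinite J
  intro σ hσ
  induction hσ using Subgroup.closure_induction with
  | mem σ hσ => exact h σ hσ
  | one =>
    intro χ hχ
    exact Iff.rfl
  | mul σ τ _ _ hσ hτ =>
    intro χ hχ
    exact (hτ χ hχ).trans (hσ _ (irr_twist (τ : ℂ →+* ℂ) hχ))
  | inv σ _ hσ =>
    intro χ hχ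
    have h2 := hσ _ (irr_twist ((σ⁻¹ : RingAut ℂ) : ℂ →+* ℂ) hχ)
    have h1 : (fun g => σ ((((σ⁻¹ : RingAut ℂ) : ℂ →+* ℂ)) (χ g))) = χ := by
      funext g
      exact σ.apply_symm_apply (χ g)
    rw [h1] at h2
    exact h2.symm

/-- the action -/
@[reducible] def actQ {J : Type} [Group J] [Finite J] {S : Set (RingAut ℂ)} {Q : (J → ℂ) → Prop}
    (h : Pres S Q) : MulAction (Subgroup.closure S) (IrrQ Q) where
  smul σ χ := ⟨fun g => (σ : RingAut ℂ) (χ.1 g), by
    have : Fintype J := Fintype.ofFinite J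
    exact irr_twist ((σ : RingAut ℂ) : ℂ →+* ℂ) χ.2.1, (h.closure σ.1 σ.2 χ.1 χ.2.1).mp χ.2.2⟩
  one_smul χ := rfl
  mul_smul σ τ χ := rfl

instance finite_IrrQ {J : Type} [Group J] [Finite J] (Q : (J → ℂ) → Prop) : Finite (IrrQ Q) := by
  have : Fintype J := Fintype.ofFinite J
  exact finite_irr (H := J) Q

/-- there is a bijection which commutes with the automorphisms in `S` and preserves the linear
characters of `W` -/
def CorrQ (S : Set (RingAut ℂ)) {J K W : Type} [Group J] [Group K] [Group W] (iJ : W →* J)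
    (iK : W →* K) (QJ : (J → ℂ) → Prop) (QK : (K → ℂ) → Prop) : Prop :=
  ∃ f : IrrQ QJ ≃ IrrQ QK,
    (∀ σ ∈ S, ∀ χ ψ : IrrQ QJ, (∀ g, ψ.1 g = σ (χ.1 g)) → ∀ g, (f ψ).1 g = σ ((f χ).1 g)) ∧
    ∀ χ w, χ.1 (iJ w) / χ.1 1 = (f χ).1 (iK w) / (f χ).1 1

section

variable {S : Set (RingAut ℂ)} {J K W : Type} [Group J] [Group K] [Group W] [Finite J] [Finite K]
  {iJ : W →* J} {iK : W →* K} {QJ : (J → ℂ) → Prop} {QK : (K → ℂ) → Prop}

lemma cnt_eq_card (hi : ∀ w g, iJ w * g = g * iJ w) (U : Set (RingAut ℂ)) (lam : W →* ℂˣ) :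
    cnt iJ (QU QJ U) lam = Nat.card {χ : IrrQ QJ // (∀ w, χ.1 (iJ w) / χ.1 1 = (lam w : ℂ)) ∧
      ∀ σ ∈ U, ∀ g, σ (χ.1 g) = χ.1 g} := by
  unfold cnt
  exact Nat.card_congr
    { toFun := fun χ => ⟨⟨χ.1, χ.2.1, χ.2.2.2.1⟩, (overI_iff hi χ.2.1).mp χ.2.2.1, χ.2.2.2.2⟩
      invFun := fun χ => ⟨χ.1.1, χ.1.2.1, (overI_iff hi χ.1.2.1).mpr χ.2.1, χ.1.2.2, χ.2.2⟩
      left_inv := fun χ => rfl
      right_inv := fun χ => rfl }

theorem cnt_of_corr (hPJ : Pres S QJ) (hPK : Pres S QK)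
    (hJ : ∀ w g, iJ w * g = g * iJ w) (hK : ∀ w g, iK w * g = g * iK w)
    (h : CorrQ S iJ iK QJ QK) {U : Set (RingAut ℂ)} (hU : U ⊆ Subgroup.closure S)
    (lam : W →* ℂˣ) : cnt iJ (QU QJ U) lam = cnt iK (QU QK U) lam := by
  obtain ⟨f, h1, h3⟩ := h
  let _ : MulAction (Subgroup.closure S) (IrrQ QJ) := actQ hPJ
  let _ : MulAction (Subgroup.closure S) (IrrQ QK) := actQ hPK
  have hcl : ∀ σ (hσ : σ ∈ Subgroup.closure S), ∀ χ : IrrQ QJ,
      f ((⟨σ, hσ⟩ : Subgroup.closure S) • χ) = (⟨σ, hσ⟩ : Subgroup.closure S) • f χ := by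
    intro σ hσ
    induction hσ using Subgroup.closure_induction with
    | mem σ hσ =>
      intro χ
      apply Subtype.ext
      funext g
      exact h1 σ hσ χ ((⟨σ, Subgroup.subset_closure hσ⟩ : Subgroup.closure S) • χ) (fun g => rfl) g
    | one =>
      intro χ
      exact (congrArg f (one_smul (Subgroup.closure S) χ)).trans
        (one_smul (Subgroup.closure S) (f χ)).symm
    | mul σ τ hσ' hτ' hσ hτ =>
      intro χ
      have e1 : (⟨σ * τ, Subgroup.mul_mem _ hσ' hτ'⟩ : Subgroup.closure S) =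
        ⟨σ, hσ'⟩ * ⟨τ, hτ'⟩ := rfl
      rw [e1, mul_smul, mul_smul, hσ, hτ]
    | inv σ hσ' hσ =>
      intro χ
      have e1 : (⟨σ⁻¹, Subgroup.inv_mem _ hσ'⟩ : Subgroup.closure S) = (⟨σ, hσ'⟩)⁻¹ := rfl
      rw [e1, eq_inv_smul_iff, ← hσ, smul_inv_smul]
  rw [cnt_eq_card hJ, cnt_eq_card hK]
  refine Nat.card_congr (f.subtypeEquiv fun χ => ?_)
  have hfixJ : ∀ (σ : RingAut ℂ) (hσ : σ ∈ Subgroup.closure S) (χ : IrrQ QJ),
      (∀ g, σ (χ.1 g) = χ.1 g) ↔ (⟨σ, hσ⟩ : Subgroup.closure S) • χ = χ := by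
    intro σ hσ χ
    constructor
    · intro h
      exact Subtype.ext (funext h)
    · intro h g
      exact congrFun (congrArg Subtype.val h) g
  have hfixK : ∀ (σ : RingAut ℂ) (hσ : σ ∈ Subgroup.closure S) (χ : IrrQ QK),
      (∀ g, σ (χ.1 g) = χ.1 g) ↔ (⟨σ, hσ⟩ : Subgroup.closure S) • χ = χ := by
    intro σ hσ χ
    constructor
    · intro h
      exact Subtype.ext (funext h)
    · intro h g
      exact congrFun (congrArg Subtype.val h) g
  refine and_congr ?_ ?_
  · refine forall_congr' fun w => ?_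
    rw [h3]
  · refine forall_congr' fun σ => forall_congr' fun hσ => ?_
    rw [hfixJ σ (hU hσ), hfixK σ (hU hσ), ← hcl σ (hU hσ) χ]
    exact ⟨fun h => by rw [h], fun h => f.injective h⟩

theorem corr_of_cnt [Finite W] (hPJ : Pres S QJ) (hPK : Pres S QK)
    (hJ : ∀ w g, iJ w * g = g * iJ w) (hK : ∀ w g, iK w * g = g * iK w)
    (h : ∀ U : Set (RingAut ℂ), U ⊆ Subgroup.closure S → ∀ (lam : W →* ℂˣ),
      cnt iJ (QU QJ U) lam = cnt iK (QU QK U) lam) : CorrQ S iJ iK QJ QK := by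
  let _ : MulAction (Subgroup.closure S) (IrrQ QJ) := actQ hPJ
  let _ : MulAction (Subgroup.closure S) (IrrQ QK) := actQ hPK
  let _ : MulAction (Subgroup.closure S) (W → ℂ) :=
    { smul := fun σ l => fun w => (σ : RingAut ℂ) (l w)
      one_smul := fun l => rfl
      mul_smul := fun σ τ l => rfl }
  have hsl : ∀ (σ : Subgroup.closure S) (l : W → ℂ),
      σ • l = fun w => (σ : RingAut ℂ) (l w) := fun _ _ => rfl
  obtain ⟨f, h1, h2⟩ := burnside (M := Subgroup.closure S) (L := W → ℂ) _ (IrrQ QJ)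
    (IrrQ QK) (fun χ w => χ.1 (iJ w) / χ.1 1) (fun χ w => χ.1 (iK w) / χ.1 1)
    (by
      intro σ χ
      rw [hsl]
      funext w
      change (σ : RingAut ℂ) (χ.1 (iJ w)) / (σ : RingAut ℂ) (χ.1 1) =
        (σ : RingAut ℂ) (χ.1 (iJ w) / χ.1 1)
      rw [map_div₀])
    (by
      intro σ χ
      rw [hsl]
      funext w
      change (σ : RingAut ℂ) (χ.1 (iK w)) / (σ : RingAut ℂ) (χ.1 1) =
        (σ : RingAut ℂ) (χ.1 (iK w) / χ.1 1)
      rw [map_div₀])
    (by
      intro U φ
      by_cases hl : ∃ lam : W →* ℂˣ, φ = fun w => ((lam w : ℂˣ) : ℂ)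
      · obtain ⟨lam, rfl⟩ := hl
        have e1 := cnt_eq_card (QJ := QJ) hJ (Subtype.val '' (U : Set (Subgroup.closure S))) lam
        have e2 := cnt_eq_card (QJ := QK) hK (Subtype.val '' (U : Set (Subgroup.closure S))) lam
        have e3 := h (Subtype.val '' (U : Set (Subgroup.closure S))) (by
          rintro _ ⟨σ, _, rfl⟩
          exact σ.2) lam
        rw [e1, e2] at e3
        refine Eq.trans ?_ (e3.trans ?_)
        · unfold mark
          refine Nat.card_congr (Equiv.subtypeEquivRight fun χ => ?_)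
          constructor
          · rintro ⟨h1, h2⟩
            refine ⟨fun w => congrFun h1 w, ?_⟩
            rintro _ ⟨σ, hσ, rfl⟩ g
            exact congrFun (congrArg Subtype.val (h2 σ hσ)) g
          · rintro ⟨h1, h3⟩
            refine ⟨funext h1, fun σ hσ => ?_⟩
            exact Subtype.ext (funext fun g => h3 _ ⟨σ, hσ, rfl⟩ g)
        · unfold mark
          refine Nat.card_congr (Equiv.subtypeEquivRight fun χ => ?_)
          constructor
          · rintro ⟨h1, h3⟩
            refine ⟨funext h1, fun σ hσ => ?_⟩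
            exact Subtype.ext (funext fun g => h3 _ ⟨σ, hσ, rfl⟩ g)
          · rintro ⟨h1, h2⟩
            refine ⟨fun w => congrFun h1 w, ?_⟩
            rintro _ ⟨σ, hσ, rfl⟩ g
            exact congrFun (congrArg Subtype.val (h2 σ hσ)) g
      · have h0J : mark (fun (χ : IrrQ QJ) w => χ.1 (iJ w) / χ.1 1) U φ = 0 := by
          unfold mark
          have : IsEmpty {χ : IrrQ QJ // (fun w => χ.1 (iJ w) / χ.1 1) = φ ∧
              ∀ g ∈ U, g • χ = χ} := by
            constructor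
            rintro ⟨χ, h1, _⟩
            apply hl
            obtain ⟨lam, hlam⟩ := exists_overI iJ hJ χ.2.1
            refine ⟨lam, ?_⟩
            rw [← h1]
            funext w
            exact overI_val χ.2.1 hlam w
          exact Nat.card_of_isEmpty
        have h0K : mark (fun (χ : IrrQ QK) w => χ.1 (iK w) / χ.1 1) U φ = 0 := by
          unfold mark
          have : IsEmpty {χ : IrrQ QK // (fun w => χ.1 (iK w) / χ.1 1) = φ ∧
              ∀ g ∈ U, g • χ = χ} := by
            constructor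
            rintro ⟨χ, h1, _⟩
            apply hl
            obtain ⟨lam, hlam⟩ := exists_overI iK hK χ.2.1
            refine ⟨lam, ?_⟩
            rw [← h1]
            funext w
            exact overI_val χ.2.1 hlam w
          exact Nat.card_of_isEmpty
        rw [h0J, h0K]) le_rfl
  refine ⟨f, ?_, ?_⟩
  · intro σ hσ χ ψ hψ g
    have h3 : ψ = (⟨σ, Subgroup.subset_closure hσ⟩ : Subgroup.closure S) • χ :=
      Subtype.ext (funext hψ)
    rw [h3, h1]
    rfl
  · intro χ w
    exact (congrFun (h2 χ) w).symm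

/-- inversion, one linear character at a time -/
theorem inversion' [Finite W] [Fintype (W →* ℂˣ)] (c c' : (W →* ℂˣ) → ℕ)
    (hc : ∀ lam mu : W →* ℂˣ, lam.ker = mu.ker → c lam = c mu)
    (hc' : ∀ lam mu : W →* ℂˣ, lam.ker = mu.ker → c' lam = c' mu)
    (h : ∀ nu : W →* ℂˣ, ∑ lam ∈ LamW nu.ker, c lam = ∑ lam ∈ LamW nu.ker, c' lam) :
    ∀ (n : ℕ) (lam : W →* ℂˣ), Nat.card W - Nat.card lam.ker ≤ n → c lam = c' lam := by
  intro n
  induction n using Nat.strong_induction_on with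
  | _ n ih =>
    intro lam hn
    have h1 := h lam
    rw [← Finset.sum_filter_add_sum_filter_not (LamW lam.ker) (fun mu => mu.ker = lam.ker),
      ← Finset.sum_filter_add_sum_filter_not (s := LamW lam.ker) (f := c')
        (fun mu => mu.ker = lam.ker)] at h1
    have h2 : ∑ mu ∈ (LamW lam.ker).filter (fun mu => ¬ mu.ker = lam.ker), c mu =
        ∑ mu ∈ (LamW lam.ker).filter (fun mu => ¬ mu.ker = lam.ker), c' mu := by
      refine Finset.sum_congr rfl fun mu hmu => ?_
      obtain ⟨h3, h4⟩ := Finset.mem_filter.mp hmu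
      have h5 : lam.ker < mu.ker := lt_of_le_of_ne (Finset.mem_filter.mp h3).2 (Ne.symm h4)
      have h6 : Nat.card lam.ker < Nat.card mu.ker := by
        refine lt_of_le_of_ne (Subgroup.card_le_of_le h5.le) fun h6 => ?_
        exact h5.ne (Subgroup.eq_of_le_of_card_ge h5.le h6.ge)
      have h7 : Nat.card mu.ker ≤ Nat.card W := Subgroup.card_le_card_group _
      exact ih (Nat.card W - Nat.card mu.ker) (by omega) mu le_rfl
    rw [h2] at h1
    have h3 := Nat.add_right_cancel h1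
    have h4 : ∀ mu ∈ (LamW lam.ker).filter (fun mu => mu.ker = lam.ker), c mu = c lam :=
      fun mu hmu => hc mu lam (Finset.mem_filter.mp hmu).2
    have h5 : ∀ mu ∈ (LamW lam.ker).filter (fun mu => mu.ker = lam.ker), c' mu = c' lam :=
      fun mu hmu => hc' mu lam (Finset.mem_filter.mp hmu).2
    rw [Finset.sum_congr rfl h4, Finset.sum_congr rfl h5, Finset.sum_const, Finset.sum_const,
      smul_eq_mul, smul_eq_mul] at h3
    have h6 : 0 < ((LamW lam.ker).filter (fun mu => mu.ker = lam.ker)).card := by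
      apply Finset.card_pos.mpr
      refine ⟨lam, Finset.mem_filter.mpr ⟨?_, rfl⟩⟩
      rw [LamW, Finset.mem_filter]
      exact ⟨Finset.mem_univ _, le_rfl⟩
    exact Nat.eq_of_mul_eq_mul_left h6 h3

end

end Pool.Agent.X209.AM
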