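import Pool.Agent.X209.PJ.Off
import Pool.Agent.X209.PJ.Uniq
import Pool.Agent.X209.CC.Corr
import Pool.Agent.Y63.NV.Stm3

/-!
# Galois automorphisms acting on blocks
-/

open scoped Classical BigOperators
open Pool.Agent.Helper884.IC Pool.Agent.Y63.AWC
open Pool.Agent.Y63.NV (redC centralValue IsClassFun IsBlock classValue conv)
open Pool.Agent.X209.PJ (mem_adjoin_int char_mem irr_twist Induces)

set_option linter.unusedSectionVars false
set_option linter.unusedVariables false

noncomputable section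

namespace Pool.Agent.X209.AM

/-- `σ` acts on the roots of unity of order prime to `p` as the `p ^ e`-th power map -/
def Frobs (p e : ℕ) (σ : ℂ ≃+* ℂ) : Prop :=
  ∀ (n : ℕ) (ξ : ℂ), ¬ p ∣ n → ξ ^ n = 1 → σ ξ = ξ ^ p ^ e

section red

variable {p : ℕ} [hp : Fact p.Prime] {F : Type} [Field F] [CharP F p]
  (red : integralClosure ℤ ℂ →+* F)

lemma frob_inj {x y : F} {v : ℕ} (h : x ^ p ^ v = y ^ p ^ v) : x = y := by
  have h1 : (x - y) ^ p ^ v = 0 := by
    rw [sub_pow_char_pow, h, sub_self]
  exact sub_eq_zero.mp (pow_eq_zero_iff (pow_ne_zero _ hp.out.ne_zero) |>.mp h1)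

theorem red_frob {e n : ℕ} {σ : ℂ ≃+* ℂ} (hσ : Frobs p e σ) (hn : n ≠ 0) {ζ : ℂ}
    (hζ : IsPrimitiveRoot ζ n) {a : ℂ} (ha : a ∈ Algebra.adjoin ℤ ({ζ} : Set ℂ)) :
    redC red (σ a) = redC red a ^ p ^ e := by
  have hint : IsIntegral ℤ ζ := hζ.isIntegral (Nat.pos_of_ne_zero hn)
  have hint' : IsIntegral ℤ (σ ζ) := by
    have h1 : IsPrimitiveRoot (σ ζ) n := hζ.map_of_injective σ.injective
    exact h1.isIntegral (Nat.pos_of_ne_zero hn)
  let z : integralClosure ℤ ℂ := ⟨ζ, hint⟩
  let z' : integralClosure ℤ ℂ := ⟨σ ζ, hint'⟩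
  have hz : red z' = red z ^ p ^ e := by
    have h1 : p ^ n.factorization p * (n / p ^ n.factorization p) = n :=
      Nat.ordProj_mul_ordCompl_eq_self n p
    have h2 : ¬ p ∣ n / p ^ n.factorization p := Nat.not_dvd_ordCompl hp.out hn
    have h3 : (ζ ^ p ^ n.factorization p) ^ (n / p ^ n.factorization p) = 1 := by
      rw [← pow_mul, h1, hζ.pow_eq_one]
    have h4 := hσ _ _ h2 h3
    have h5 : z' ^ p ^ n.factorization p = (z ^ p ^ e) ^ p ^ n.factorization p := by
      apply Subtype.ext
      change (σ ζ) ^ p ^ n.factorization p = (ζ ^ p ^ e) ^ p ^ n.factorization p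
      rw [← map_pow, h4, ← pow_mul, ← pow_mul, mul_comm]
    have h6 := congrArg red h5
    rw [map_pow, map_pow, map_pow] at h6
    exact frob_inj h6
  rw [Algebra.adjoin_singleton_eq_range_aeval] at ha
  obtain ⟨P, rfl⟩ := ha
  have e1 : ∀ (w : integralClosure ℤ ℂ),
      ((Polynomial.aeval w P : integralClosure ℤ ℂ) : ℂ) = Polynomial.aeval (w : ℂ) P := by
    intro w
    exact (Polynomial.aeval_algHom_apply (integralClosure ℤ ℂ).val w P).symm
  have e2 : ∀ (w : integralClosure ℤ ℂ),
      redC red (Polynomial.aeval (w : ℂ) P) = Polynomial.aeval (red w) P := by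
    intro w
    rw [← e1, Pool.Agent.Y930.NV.redC_of red (Polynomial.aeval w P).2]
    exact (Polynomial.aeval_algHom_apply red.toIntAlgHom w P).symm
  have e3 : σ (Polynomial.aeval ζ P) = Polynomial.aeval ((z' : integralClosure ℤ ℂ) : ℂ) P := by
    have h1 := (Polynomial.aeval_algHom_apply (σ : ℂ →+* ℂ).toIntAlgHom ζ P).symm
    exact h1
  change redC red (σ (Polynomial.aeval ζ P)) = redC red (Polynomial.aeval ζ P) ^ p ^ e
  rw [e3, e2, hz]
  have e4 := e2 z
  change redC red (Polynomial.aeval ζ P) = Polynomial.aeval (red z) P at e4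
  rw [e4]
  have e5 := Polynomial.aeval_algHom_apply (iterateFrobenius F p e).toIntAlgHom (red z) P
  change Polynomial.aeval (iterateFrobenius F p e (red z)) P =
    iterateFrobenius F p e (Polynomial.aeval (red z) P) at e5
  rw [iterateFrobenius_def, iterateFrobenius_def] at e5
  exact e5

theorem cv_frob {J : Type} [Group J] [Finite J] {e : ℕ} {σ : ℂ ≃+* ℂ} (hσ : Frobs p e σ)
    {χ : J → ℂ} (hχ : IsIrrChar χ) (f : J → F) (hf : ∀ x, f x ^ p ^ e = f x) :
    centralValue red (fun g => σ (χ g)) f = centralValue red χ f ^ p ^ e := by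
  have : Fintype J := Fintype.ofFinite J
  have : Fintype (ConjClasses J) := Fintype.ofFinite _
  have hn : Nat.card J ≠ 0 := Nat.card_pos.ne'
  have hζ := Complex.isPrimitiveRoot_exp (Nat.card J) hn
  unfold centralValue
  rw [finsum_eq_sum_of_fintype, finsum_eq_sum_of_fintype]
  have h0 : ∀ x : F, x ^ p ^ e = iterateFrobenius F p e x := fun x => by
    rw [iterateFrobenius_def]
  rw [h0, map_sum]
  refine Finset.sum_congr rfl fun C _ => ?_
  rw [map_mul, ← h0, ← h0, hf]
  congr 1
  have hχ' : Pool.Agent.Y63.AWC.IsIrreducibleCharacter χ := hχ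
  have hint : IsIntegral ℤ ((Nat.card C.carrier : ℂ) * χ C.out / χ 1) := by
    rw [← Pool.Agent.Y930.NV.om_ind χ (Pool.Agent.Y930.NV.irr_Cf hχ') C,
      ← Pool.Agent.Y930.NV.ind_cast]
    exact Pool.Agent.Y930.NV.om_int hχ' (Pool.Agent.Y930.NV.Cf_ind ℤ C)
  have hmem : (Nat.card C.carrier : ℂ) * χ C.out / χ 1 ∈
      IntermediateField.adjoin ℚ ({Complex.exp (2 * Real.pi * Complex.I / Nat.card J)} : Set ℂ) :=
    div_mem (mul_mem (natCast_mem _ _) (char_mem hζ hn (fun g => pow_card_eq_one') hχ _))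
      (char_mem hζ hn (fun g => pow_card_eq_one') hχ _)
  have h1 := red_frob red hσ hn hζ (mem_adjoin_int hn hζ hint hmem)
  rw [← h1, map_div₀, map_mul, map_natCast]

end red

section lin

variable {F : Type} [Field F] {G : Type} [Group G] [Finite G]

lemma cls_eq {G : Type} [Group G] (x : G) : IsClassFun (fun y : G => if IsConj x y then (1 : F) else 0) :=
  Pool.Agent.Y858.NV.isClassFun_conj x

/-- a block is determined by its values at the class sums -/
theorem block_ext {b b' : (G → F) → F} (hb : IsBlock b) (hb' : IsBlock b')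
    (h : ∀ x : G, classValue b x = classValue b' x) {f : G → F} (hf : IsClassFun f) :
    b f = b' f := by
  have : Fintype (ConjClasses G) := Fintype.ofFinite _
  have hcl : ∀ x : G, IsClassFun (fun y : G => if IsConj x y then (1 : F) else 0) :=
    fun x => cls_eq x
  have hsm : ∀ (a : F) (x : G), IsClassFun (a • (fun y : G => if IsConj x y then (1 : F) else 0)) :=
    fun a x g y => by simp only [Pi.smul_apply, hcl x g y]
  have h0 : ∀ {c : (G → F) → F}, IsBlock c → c 0 = 0 := by
    intro c hc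
    have h1 := hc.smul 0 (fun y : G => if IsConj 1 y then (1 : F) else 0) (hcl 1)
    rwa [zero_smul, zero_mul] at h1
  have hsum : ∀ {c : (G → F) → F}, IsBlock c → ∀ s : Finset (ConjClasses G),
      IsClassFun (∑ C ∈ s, f C.out • (fun y : G => if IsConj C.out y then (1 : F) else 0)) ∧
      c (∑ C ∈ s, f C.out • (fun y : G => if IsConj C.out y then (1 : F) else 0)) =
        ∑ C ∈ s, f C.out * classValue c C.out := by
    intro c hc s
    induction s using Finset.induction_on with
    | empty =>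
      rw [Finset.sum_empty, Finset.sum_empty]
      exact ⟨fun g x => rfl, h0 hc⟩
    | insert C s hC ih =>
      rw [Finset.sum_insert hC, Finset.sum_insert hC]
      refine ⟨fun g y => ?_, ?_⟩
      · rw [Pi.add_apply, Pi.add_apply, ih.1 g y, hsm _ _ g y]
      · rw [hc.add _ _ (hsm _ _) ih.1, ih.2, hc.smul _ _ (hcl _)]
        rfl
  have hfe : f = ∑ C : ConjClasses G, f C.out • (fun y : G => if IsConj C.out y then (1 : F) else 0) := by
    funext y
    rw [Finset.sum_apply, Finset.sum_eq_single (ConjClasses.mk y)]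
    · have h1 : IsConj (ConjClasses.mk y).out y := (Pool.Agent.X209.PJ.out_conj y).symm
      obtain ⟨c, hc⟩ := isConj_iff.mp h1
      have h2 := hf c (ConjClasses.mk y).out
      rw [hc] at h2
      rw [Pi.smul_apply, if_pos h1, smul_eq_mul, mul_one]
      exact h2
    · intro C _ hC
      rw [Pi.smul_apply, if_neg, smul_zero]
      intro h1
      apply hC
      rw [← ConjClasses.mk_eq_mk_iff_isConj.mpr h1]
      exact (Quotient.out_eq C).symm
    · intro h1
      exact absurd (Finset.mem_univ _) h1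
  rw [hfe, (hsum hb _).2, (hsum hb' _).2]
  exact Finset.sum_congr rfl fun C _ => by rw [h]

end lin

end Pool.Agent.X209.AM
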